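import Pool.Agent.N343.AS.Stm

/-!
# Project AS (helper343), MP_160bbb_an: splitting the indices of the series (helper362)
-/

set_option autoImplicit false

open Filter Topology MeasureTheory Finset Pool.Agent.N343.AS

namespace Pool.Agent.N362.AS

/-! ### levels -/

lemma st_succ (n A : ℕ → ℕ) (N : ℕ) : st n A (N + 1) = st n A N + (n N + 2 * MM A N) := by
  simp [st, sum_range_succ]

lemma st_mono (n A : ℕ → ℕ) : Monotone (st n A) :=
  monotone_nat_of_le_succ fun N => by rw [st_succ]; omega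

lemma lev_unique {n A : ℕ → ℕ} {m N N' : ℕ} (h1 : st n A N ≤ m) (h2 : m < st n A (N + 1))
    (h3 : st n A N' ≤ m) (h4 : m < st n A (N' + 1)) : N = N' := by
  rcases lt_trichotomy N N' with h | h | h
  · have := st_mono n A (show N + 1 ≤ N' from h)
    omega
  · exact h
  · have := st_mono n A (show N' + 1 ≤ N from h)
    omega

lemma exists_lev {n A : ℕ → ℕ} (hn : ∀ N, 0 < n N) (m : ℕ) :
    ∃ N, st n A N ≤ m ∧ m < st n A (N + 1) := by
  induction m with
  | zero =>
    refine ⟨0, by simp [st], ?_⟩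
    rw [st_succ]
    have := hn 0
    omega
  | succ m ih =>
    obtain ⟨N, h1, h2⟩ := ih
    by_cases h : m + 1 < st n A (N + 1)
    · exact ⟨N, by omega, h⟩
    · refine ⟨N + 1, by omega, ?_⟩
      rw [st_succ n A (N + 1)]
      have := hn (N + 1)
      omega

/-- positions of the vectors with `Y ≠ 0` -/
def pos (n A : ℕ → ℕ) (N : ℕ) (s : Bool) (r : ℕ) : ℕ :=
  st n A N + n N + (2 * r + if s then 0 else 1)

/-- numbered copies of level `N` -/
abbrev Ty (C : ℕ → ℕ) : Type := {p : ℕ × Bool × ℕ // p.2.2 < C p.1}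

/-- the encoding of the indices -/
def enc (n A : ℕ → ℕ) : (Σ N, Fin (n N)) ⊕ Ty (MM A) → ℕ
  | Sum.inl p => st n A p.1 + p.2
  | Sum.inr p => pos n A p.1.1 p.1.2.1 p.1.2.2

lemma enc_bij {n A : ℕ → ℕ} (hn : ∀ N, 0 < n N) : Function.Bijective (enc n A) := by
  have hT : ∀ (N : ℕ) (k : Fin (n N)), st n A N ≤ st n A N + k ∧
      st n A N + k < st n A (N + 1) := by
    intro N k
    have := k.2
    rw [st_succ]
    omega
  have hP : ∀ (N : ℕ) (s : Bool) (r : ℕ), r < MM A N → st n A N ≤ pos n A N s r ∧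
      pos n A N s r < st n A (N + 1) := by
    intro N s r hr
    rw [st_succ, pos]
    split_ifs <;> omega
  constructor
  · rintro (⟨N, k⟩ | ⟨⟨N, s, r⟩, hr⟩) (⟨N', k'⟩ | ⟨⟨N', s', r'⟩, hr'⟩) h
    · have h' : st n A N + k = st n A N' + k' := h
      have h1 := hT N k
      have h2 := hT N' k'
      obtain rfl : N = N' := lev_unique h1.1 h1.2 (by omega) (by omega)
      have : k = k' := Fin.ext (by omega)
      rw [this]
    · exfalso
      have h' : st n A N + k = pos n A N' s' r' := h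
      have h1 := hT N k
      have h2 := hP N' s' r' hr'
      obtain rfl : N = N' := lev_unique h1.1 h1.2 (by omega) (by omega)
      have := k.2
      rw [pos] at h'
      omega
    · exfalso
      have h' : pos n A N s r = st n A N' + k' := h
      have h1 := hP N s r hr
      have h2 := hT N' k'
      obtain rfl : N = N' := lev_unique h1.1 h1.2 (by omega) (by omega)
      have := k'.2
      rw [pos] at h'
      omega
    · have h' : pos n A N s r = pos n A N' s' r' := h
      have h1 := hP N s r hr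
      have h2 := hP N' s' r' hr'
      obtain rfl : N = N' := lev_unique h1.1 h1.2 (by omega) (by omega)
      rw [pos, pos] at h'
      have h3 : r = r' := by split_ifs at h' <;> omega
      subst h3
      have h4 : s = s' := by
        cases s <;> cases s' <;> simp at h' ⊢
      subst h4
      rfl
  · intro m
    obtain ⟨N, h1, h2⟩ := exists_lev (A := A) hn m
    rw [st_succ] at h2
    by_cases h : m - st n A N < n N
    · exact ⟨Sum.inl ⟨N, ⟨m - st n A N, h⟩⟩, by simp only [enc]; omega⟩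
    · have h3 : (m - st n A N - n N) / 2 < MM A N := by omega
      refine ⟨Sum.inr ⟨(N, decide ((m - st n A N - n N) % 2 = 0), (m - st n A N - n N) / 2), h3⟩,
        ?_⟩
      simp only [enc, pos, decide_eq_true_eq]
      split_ifs <;> omega

/-- first position of the singles -/
def off (A : ℕ → ℕ) : ℕ → ℕ
  | 0 => A 0
  | N + 1 => A (N + 1) + 2 * A N

lemma MM_off (A : ℕ → ℕ) (N : ℕ) : MM A N = off A N + 2 ^ N := by
  cases N <;> simp [MM, off]

lemma A_le_off (A : ℕ → ℕ) (N : ℕ) : A N ≤ off A N := by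
  cases N <;> simp [off]

/-- the terms of a triple -/
def tri (A : ℕ → ℕ) (p : Ty A) : Fin 3 → Ty (MM A)
  | 0 => ⟨p.1, by
      have h1 := p.2
      have h2 := A_le_off A p.1.1
      have h3 := Nat.two_pow_pos p.1.1
      rw [MM_off]
      omega⟩
  | 1 => ⟨(p.1.1 + 1, !p.1.2.1, A (p.1.1 + 1) + 2 * p.1.2.2), by
      have h1 := p.2
      have h3 := Nat.two_pow_pos (p.1.1 + 1)
      simp only [MM]
      omega⟩
  | 2 => ⟨(p.1.1 + 1, !p.1.2.1, A (p.1.1 + 1) + 2 * p.1.2.2 + 1), by
      have h1 := p.2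
      have h3 := Nat.two_pow_pos (p.1.1 + 1)
      simp only [MM]
      omega⟩

/-- the singles -/
def sing (A : ℕ → ℕ) (p : Ty fun N => 2 ^ N) : Ty (MM A) :=
  ⟨(p.1.1, p.1.2.1, off A p.1.1 + p.1.2.2), by
    have h1 : p.1.2.2 < 2 ^ p.1.1 := p.2
    simp only [MM_off]
    omega⟩

/-- triples and singles -/
def DD (A : ℕ → ℕ) : (Ty A × Fin 3) ⊕ (Ty fun N => 2 ^ N) → Ty (MM A)
  | Sum.inl q => tri A q.1 q.2
  | Sum.inr p => sing A p

lemma tri_single (A : ℕ → ℕ) (p : Ty A) (j : Fin 3) (q : Ty fun N => 2 ^ N) :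
    tri A p j ≠ sing A q := by
  obtain ⟨⟨N, s, k⟩, hk⟩ := p
  obtain ⟨⟨N', s', k'⟩, hk'⟩ := q
  intro h
  simp only at hk hk'
  fin_cases j
  · simp only [tri, sing, Subtype.mk.injEq, Prod.mk.injEq] at h
    obtain ⟨rfl, _, h⟩ := h
    have := A_le_off A N
    omega
  · simp only [tri, sing, Subtype.mk.injEq, Prod.mk.injEq] at h
    obtain ⟨rfl, _, h⟩ := h
    simp only [off] at h
    omega
  · simp only [tri, sing, Subtype.mk.injEq, Prod.mk.injEq] at h
    obtain ⟨rfl, _, h⟩ := h
    simp only [off] at h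
    omega

lemma tri_inj (A : ℕ → ℕ) {p p' : Ty A} {j j' : Fin 3} (h : tri A p j = tri A p' j') :
    p = p' ∧ j = j' := by
  obtain ⟨⟨N, s, k⟩, hk⟩ := p
  obtain ⟨⟨N', s', k'⟩, hk'⟩ := p'
  simp only at hk hk'
  fin_cases j <;> fin_cases j' <;> simp only [tri, Subtype.mk.injEq, Prod.mk.injEq] at h <;>
    obtain ⟨h1, h2, h3⟩ := h
  · subst h1 h2 h3
    exact ⟨rfl, rfl⟩
  · subst h1
    omega
  · subst h1
    omega
  · subst h1
    omega
  · obtain rfl : N = N' := by omega
    obtain rfl : k = k' := by omega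
    obtain rfl : s = s' := by simpa using h2
    exact ⟨rfl, rfl⟩
  · obtain rfl : N = N' := by omega
    omega
  · subst h1
    omega
  · obtain rfl : N = N' := by omega
    omega
  · obtain rfl : N = N' := by omega
    obtain rfl : k = k' := by omega
    obtain rfl : s = s' := by simpa using h2
    exact ⟨rfl, rfl⟩

lemma DD_bij (A : ℕ → ℕ) : Function.Bijective (DD A) := by
  constructor
  · rintro (⟨p, j⟩ | q) (⟨p', j'⟩ | q') h
    · obtain ⟨rfl, rfl⟩ := tri_inj A (h : tri A p j = tri A p' j')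
      rfl
    · exact absurd h (tri_single A p j q')
    · exact absurd (Eq.symm h) (tri_single A p' j' q)
    · obtain ⟨⟨N, s, k⟩, hk⟩ := q
      obtain ⟨⟨N', s', k'⟩, hk'⟩ := q'
      simp only [DD, sing, Subtype.mk.injEq, Prod.mk.injEq] at h
      obtain ⟨rfl, rfl, h⟩ := h
      obtain rfl : k = k' := by omega
      rfl
  · rintro ⟨⟨N, s, r⟩, hr⟩
    simp only at hr
    rw [MM_off] at hr
    by_cases h1 : r < A N
    · exact ⟨Sum.inl (⟨(N, s, r), h1⟩, 0), rfl⟩
    · by_cases h2 : off A N ≤ r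
      · refine ⟨Sum.inr ⟨(N, s, r - off A N), by simp only; omega⟩, ?_⟩
        simp only [DD, sing, Subtype.mk.injEq, Prod.mk.injEq, true_and]
        omega
      · cases N with
        | zero =>
          simp only [off] at h2
          omega
        | succ M =>
          simp only [off] at h2
          have h3 : (r - A (M + 1)) / 2 < A M := by omega
          by_cases h4 : (r - A (M + 1)) % 2 = 0
          · refine ⟨Sum.inl (⟨(M, !s, (r - A (M + 1)) / 2), h3⟩, 1), ?_⟩
            simp only [DD, tri, Subtype.mk.injEq, Prod.mk.injEq, Bool.not_not, true_and]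
            omega
          · refine ⟨Sum.inl (⟨(M, !s, (r - A (M + 1)) / 2), h3⟩, 2), ?_⟩
            simp only [DD, tri, Subtype.mk.injEq, Prod.mk.injEq, Bool.not_not, true_and]
            omega

/-! ### countings -/

/-- the sign -/
def sgn (s : Bool) : ℝ := if s then 1 else -1

lemma sgn_or (s : Bool) : sgn s = 1 ∨ sgn s = -1 := by
  cases s
  · right; simp [sgn]
  · left; simp [sgn]

lemma sgn_not (s : Bool) : sgn (!s) = -sgn s := by
  cases s <;> simp [sgn]

lemma sgn_inj {s s' : Bool} (h : sgn s = sgn s') : s = s' := by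
  cases s <;> cases s' <;> simp [sgn] at h ⊢ <;> norm_num at h

instance (C : ℕ → ℕ) : Countable (Ty C) := inferInstance

lemma ty_inf {C : ℕ → ℕ} (hC : ∀ N, 0 < C N) : Infinite (Ty C) :=
  Infinite.of_injective (fun N : ℕ => (⟨(N, true, 0), hC N⟩ : Ty C)) fun a b h => by
    simpa using h

lemma ty_card {C : ℕ → ℕ} (e : ℕ ≃ Ty C) (N : ℕ) (s : Bool) (t : ℝ) (ht : t = sgn s) :
    {m | (e m).1.1 = N ∧ sgn (e m).1.2.1 = t}.ncard = C N ∧
      {m | (e m).1.1 = N ∧ sgn (e m).1.2.1 = t}.Finite := by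
  subst ht
  have h : {m | (e m).1.1 = N ∧ sgn (e m).1.2.1 = sgn s} =
      Set.range fun k : Fin (C N) => e.symm ⟨(N, s, k), k.2⟩ := by
    ext m
    simp only [Set.mem_ofPred_eq, Set.mem_range]
    constructor
    · rintro ⟨h1, h2⟩
      have h3 := sgn_inj h2
      obtain ⟨⟨⟨N', s', k⟩, hk⟩, he⟩ : ∃ p, e m = p := ⟨_, rfl⟩
      rw [he] at h1 h3
      simp only at h1 h3 hk
      subst h1 h3
      exact ⟨⟨k, hk⟩, by rw [← he, Equiv.symm_apply_apply]⟩
    · rintro ⟨k, rfl⟩
      simp
  have hinj : Function.Injective fun k : Fin (C N) => e.symm (⟨(N, s, k), k.2⟩ : Ty C) := by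
    intro a b hab
    have := e.symm.injective hab
    simp only [Subtype.mk.injEq, Prod.mk.injEq, true_and] at this
    exact Fin.ext this
  rw [h]
  refine ⟨?_, Set.finite_range _⟩
  rw [← Nat.card_coe_set_eq, Nat.card_range_of_injective hinj, Nat.card_eq_fintype_card,
    Fintype.card_fin]

theorem main : S_SPL := by
  intro n c X A hH x hx
  have hA : ∀ N, 0 < A N := by
    intro N
    by_contra h
    have h0 : A N = 0 := by omega
    have := hH.AX N
    rw [h0] at this
    simp at this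
    linarith
  have h1inf : Infinite (Σ N, Fin (n N)) :=
    Infinite.of_injective (fun N : ℕ => (⟨N, ⟨0, hH.npos N⟩⟩ : Σ N, Fin (n N))) fun a b h =>
      (Sigma.mk.inj_iff.mp h).1
  have h2inf : Infinite (Ty A) := ty_inf hA
  have h3inf : Infinite (Ty fun N => 2 ^ N) := ty_inf fun N => by positivity
  obtain ⟨e1⟩ := nonempty_equiv_of_countable (α := ℕ) (β := Σ N, Fin (n N))
  obtain ⟨e2⟩ := nonempty_equiv_of_countable (α := ℕ) (β := Ty A)
  obtain ⟨e3⟩ := nonempty_equiv_of_countable (α := ℕ) (β := Ty fun N => 2 ^ N)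
  -- the equivalence
  obtain ⟨G, hG⟩ : ∃ G : ℕ ⊕ ((ℕ × Fin 3) ⊕ ℕ) ≃ ℕ, G =
      (Equiv.sumCongr e1 ((Equiv.sumCongr (Equiv.prodCongr e2 (Equiv.refl _)) e3).trans
        (Equiv.ofBijective _ (DD_bij A)))).trans (Equiv.ofBijective _ (enc_bij hH.npos)) :=
    ⟨_, rfl⟩
  have g1 : ∀ m, G (Sum.inl m) = st n A (e1 m).1 + (e1 m).2 := fun m => by rw [hG]; rfl
  have g2 : ∀ m j, G (Sum.inr (Sum.inl (m, j))) =
      pos n A (tri A (e2 m) j).1.1 (tri A (e2 m) j).1.2.1 (tri A (e2 m) j).1.2.2 :=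
    fun m j => by rw [hG]; rfl
  have g3 : ∀ m, G (Sum.inr (Sum.inr m)) =
      pos n A (sing A (e3 m)).1.1 (sing A (e3 m)).1.2.1 (sing A (e3 m)).1.2.2 :=
    fun m => by rw [hG]; rfl
  have xT : ∀ (N : ℕ) (k : Fin (n N)), x (st n A N + k) = (c N k, 0) :=
    fun N k => (hx N).1 k k.2
  have xP : ∀ (N : ℕ) (s : Bool) (r : ℕ), r < MM A N →
      x (pos n A N s r) = (sgn s * X N, sgn s * (1 / 2) ^ N) := by
    intro N s r hr
    have h := (hx N).2 (2 * r + if s then 0 else 1) (by split_ifs <;> omega)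
    rw [pos, h]
    cases s
    · simp [sgn, pow_add, pow_mul]
    · simp [sgn, pow_mul]
  have xP' : ∀ p : Ty (MM A), x (pos n A p.1.1 p.1.2.1 p.1.2.2) =
      (sgn p.1.2.1 * X p.1.1, sgn p.1.2.1 * (1 / 2) ^ p.1.1) := fun p => xP _ _ _ p.2
  refine ⟨G.symm, fun m => (e2 m).1.1, fun m => (e3 m).1.1, fun m => sgn (e2 m).1.2.1,
    fun m => sgn (e3 m).1.2.1, ?_, ?_, ?_, ?_, ?_, fun m => sgn_or _, fun m => sgn_or _,
    fun N => ty_card e2 N true 1 (by simp [sgn]), fun N => ty_card e2 N false (-1) (by simp [sgn]),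
    fun N => ty_card e3 N true 1 (by simp [sgn]), fun N => ty_card e3 N false (-1) (by simp [sgn])⟩
  · simp only [Equiv.symm_symm]
    have h1 : (fun m => ‖x (G (Sum.inl m))‖) =
        (fun p : Σ N, Fin (n N) => c p.1 p.2) ∘ e1 := by
      funext m
      rw [g1, xT, Prod.norm_mk]
      have h2 := hH.cpos (e1 m).1 (e1 m).2 (e1 m).2.2
      simp only [norm_zero, Function.comp]
      rw [max_eq_left (norm_nonneg _), Real.norm_of_nonneg h2.le]
    rw [h1, Equiv.summable_iff, summable_sigma_of_nonneg (f := fun p : Σ N, Fin (n N) =>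
      c p.1 p.2) fun p => (hH.cpos p.1 p.2 p.2.2).le]
    refine ⟨fun N => (hasSum_fintype _).summable, ?_⟩
    refine hH.csum.congr fun N => ?_
    rw [tsum_fintype, Finset.sum_range]
  · intro m
    rw [Equiv.symm_symm, g2, xP']
    rfl
  · intro m
    rw [Equiv.symm_symm, g2, xP']
    simp only [tri, sgn_not]
  · intro m
    rw [Equiv.symm_symm, g2, xP']
    simp only [tri, sgn_not]
  · intro m
    rw [Equiv.symm_symm, g3, xP']
    rfl

end Pool.Agent.N362.AS
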